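import Pool.Agent.Q271.CM.Span

/-!
# Colmez's product formula: the types of one signature decide

Let `K` be a CM field which is Galois over `ℚ` and contains an imaginary quadratic field `K0`, and
let `n = [K : ℚ] / 2`. Every CM field is contained in such a field. A CM type `Φ` of `K` has signature
`(n - r, r)` if `r` of its elements do not restrict to the inclusion of `K0`. We show, for every `r`
with `0 < r < n`, that the formula `ht(E,ψ,Φ) = Z^∞((a⁰_{E,ψ,Φ})^*,0)` of the question holds for all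
CM fields `E` contained in `K`, all CM types `Φ` of `E` and all embeddings `ψ` of `E`, if and only if it
holds for `E = K`, for the CM types of `K` of signature `(n - r, r)`, and the inclusion `ψ` of `K`.
For instance it is enough to know it for the types of signature `(n - 1, 1)`, or for those of
signature `(n / 2, n / 2)` (the abelian varieties are then of Weil type), if `n` is even.

Part (A) is free of any hypothesis on heights: it is the corresponding statement on the rational
subspaces of the functions on `Gal(K/ℚ)` which contain the functions of the averaged formula and of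
the abelian case (`HasKnown`). In part (B) the heights are given by their known properties
(`Heights`), as in the team's `MP_a2beea_nt.RationalConstituents`: the theorems of Colmez, the
averaged formula and the abelian case.
-/

open scoped Classical
open Finset Pool.Agent.Q271.CM

set_option linter.unusedSectionVars false

namespace Pool.Agent.Results.MP_a2beea_nt.OneSignature

attribute [local instance] instAct

/-- The statement for heights. -/
theorem heights_part (K : Type) [Field K] [NumberField K] [IsGalois ℚ K] (c : K ≃ₐ[ℚ] K)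
    (hc : ∀ (φ : K →+* ℂ) (x : K), φ (c x) = starRingEnd ℂ (φ x)) (hc1 : c ≠ 1)
    (K0 : IntermediateField ℚ K) (h2 : degree K0 = 2) (hK0 : IsCMSub c K0)
    (r : ℕ) (hr0 : 0 < r) (hr : 2 * r < Module.finrank ℚ K)
    (Z : ((K ≃ₐ[ℚ] K) → ℚ) →ₗ[ℚ] ℝ) (H : Heights c Z) :
    (∀ E : IntermediateField ℚ K, IsCMSub c E → ∀ Φ : Finset (Emb E), IsType c Φ →
      ∀ ψ : Emb E, H.ht E ψ Φ = Z (a0 E ψ Φ)) ↔
    ∀ Φ : Finset (Emb (⊤ : IntermediateField ℚ K)), IsType c Φ → sig K0 Φ = r →
      H.ht ⊤ (⊤ : IntermediateField ℚ K).val Φ = Z (a0 ⊤ (⊤ : IntermediateField ℚ K).val Φ) := by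
  have htop := isCMSub_top hc1
  constructor
  · intro h Φ hΦ _
    exact h ⊤ htop Φ hΦ _
  · intro h E hE Φ hΦ ψ
    obtain ⟨L, hL⟩ := H.linear
    have hidx := index_fixing h2
    have hcH := notMem_fixing hK0
    have hD1 := D_one hc hc1 H L hL
    have hE0 := sum_HF hc H L hL h2 hK0
    have hcard := card_HF (K := K) (K0 := K0) h2
    have key := one_sig (c_sq hc) hidx hcH hE0 hr0 (by omega) (by
      intro S hS hSr
      have h3 := h (img S) (img_isType hS) (by rw [sig_img, hSr])
      rw [hL ⊤ htop _ (img_isType hS)] at h3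
      have h4 := a0_img S 1
      have h5 : (ev0 1 : Emb (⊤ : IntermediateField ℚ K)) = (⊤ : IntermediateField ℚ K).val := by
        unfold ev0; rw [one_smul]
      rw [h5] at h4
      simp only [inv_one, mul_one] at h4
      have h6 : (L - Z) (∑ b ∈ S, AA b) = 0 := by
        rw [← h4, LinearMap.sub_apply, h3, sub_self]
      rw [map_sum] at h6
      exact h6)
    rw [hL E hE Φ hΦ]
    have h7 : (L - Z) (a0 E ψ Φ) = 0 := by
      refine D_zero (c_sq hc) hD1 key (a0 E ψ Φ) ?_ (1 / 2) ?_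
      · intro x g
        exact Q264.CM.aa_conj (G := K ≃ₐ[ℚ] K) ψ Φ x g
      · intro g
        have := Q264.CM.aa_add_c (c_sq hc) (c_cen hc) hΦ ψ g
        rw [show a0 E ψ Φ g + a0 E ψ Φ (c * g) = 1 from this]
        norm_num
    rw [LinearMap.sub_apply, sub_eq_zero] at h7
    exact h7

/-- The statement for subspaces of functions, free of hypotheses on heights. -/
theorem span_part (K : Type) [Field K] [NumberField K] [IsGalois ℚ K] (c : K ≃ₐ[ℚ] K)
    (hc : ∀ (φ : K →+* ℂ) (x : K), φ (c x) = starRingEnd ℂ (φ x)) (hc1 : c ≠ 1)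
    (K0 : IntermediateField ℚ K) (h2 : degree K0 = 2) (hK0 : IsCMSub c K0)
    (r : ℕ) (hr0 : 0 < r) (hr : 2 * r < Module.finrank ℚ K)
    (V : Submodule ℚ ((K ≃ₐ[ℚ] K) → ℚ)) (hV : HasKnown c V)
    (h : ∀ Φ : Finset (Emb (⊤ : IntermediateField ℚ K)), IsType c Φ → sig K0 Φ = r →
      a0 ⊤ (⊤ : IntermediateField ℚ K).val Φ ∈ V)
    (E : IntermediateField ℚ K) (hE : IsCMSub c E) (Φ : Finset (Emb E)) (hΦ : IsType c Φ)
    (ψ : Emb E) : a0 E ψ Φ ∈ V := by
  by_contra hcon
  obtain ⟨lam, hlam1, hlam2⟩ := Submodule.exists_le_ker_of_notMem hcon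
  have h1 := (heights_part K c hc hc1 K0 h2 hK0 r hr0 hr 0 (mkH hc V hV lam hlam2)).2 (by
    intro Φ' hΦ' hs
    rw [mkH_ht, show lam (a0 ⊤ (⊤ : IntermediateField ℚ K).val Φ') = 0 from hlam2 (h Φ' hΦ' hs)]
    simp) E hE Φ hΦ ψ
  rw [mkH_ht, LinearMap.zero_apply] at h1
  exact hlam1 (by exact_mod_cast h1)

/-- **The types of one signature decide.** -/
theorem result (K : Type) [Field K] [NumberField K] [IsGalois ℚ K] (c : K ≃ₐ[ℚ] K)
    (hc : ∀ (φ : K →+* ℂ) (x : K), φ (c x) = starRingEnd ℂ (φ x)) (hc1 : c ≠ 1)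
    (K0 : IntermediateField ℚ K) (h2 : degree K0 = 2) (hK0 : IsCMSub c K0)
    (r : ℕ) (hr0 : 0 < r) (hr : 2 * r < Module.finrank ℚ K) :
    -- (A) subspaces of functions; no hypothesis on heights
    (∀ V : Submodule ℚ ((K ≃ₐ[ℚ] K) → ℚ), HasKnown c V →
      ((∀ E : IntermediateField ℚ K, IsCMSub c E → ∀ Φ : Finset (Emb E), IsType c Φ →
        ∀ ψ : Emb E, a0 E ψ Φ ∈ V) ↔
      ∀ Φ : Finset (Emb (⊤ : IntermediateField ℚ K)), IsType c Φ → sig K0 Φ = r →
        a0 ⊤ (⊤ : IntermediateField ℚ K).val Φ ∈ V)) ∧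
    -- (B) heights with the published properties
    ∀ (Z : ((K ≃ₐ[ℚ] K) → ℚ) →ₗ[ℚ] ℝ) (H : Heights c Z),
      (∀ E : IntermediateField ℚ K, IsCMSub c E → ∀ Φ : Finset (Emb E), IsType c Φ →
        ∀ ψ : Emb E, H.ht E ψ Φ = Z (a0 E ψ Φ)) ↔
      ∀ Φ : Finset (Emb (⊤ : IntermediateField ℚ K)), IsType c Φ → sig K0 Φ = r →
        H.ht ⊤ (⊤ : IntermediateField ℚ K).val Φ = Z (a0 ⊤ (⊤ : IntermediateField ℚ K).val Φ) :=
  ⟨fun V hV => ⟨fun h Φ hΦ _ => h ⊤ (isCMSub_top hc1) Φ hΦ _,
    fun h E hE Φ hΦ ψ => span_part K c hc hc1 K0 h2 hK0 r hr0 hr V hV h E hE Φ hΦ ψ⟩,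
    fun Z H => heights_part K c hc hc1 K0 h2 hK0 r hr0 hr Z H⟩

end Pool.Agent.Results.MP_a2beea_nt.OneSignature
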