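import Pool.Agent.Q271.CM.Sym
import Pool.Agent.Q271.CM.Span

/-!
# Colmez's conjecture for Faltings heights: the types of one signature decide

Let `K` be a CM field which is Galois over `ℚ` and contains an imaginary quadratic field `K0`, and
let `n = [K : ℚ] / 2`. Every CM field is contained in such a field. A CM type `Φ` of `K` has signature
`(n - r, r)` if `r` of its elements do not restrict to the inclusion of `K0`. The sum over `ψ ∈ Φ` of the
formula `ht(E,ψ,Φ) = Z^∞((a⁰_{E,ψ,Φ})^*,0)` of the question is Colmez's formula for the Faltings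
height of the abelian varieties with complex multiplication of type `(E,Φ)`. We show, for every `r` with
`2 ≤ r ≤ n - 2`, that this formula for Faltings heights holds for all CM fields `E` contained in `K`
and all CM types of `E` if and only if it holds for the CM types of `K` of signature `(n - r, r)`; and that
it holds always for the types of `K` of signature `(n - 1, 1)` (and `(n, 0)`). So the first signature which
is not known, `(n - 2, 2)`, decides.

Part (A) is free of any hypothesis on heights: it is the corresponding statement on the rational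
subspaces of the functions on `Gal(K/ℚ)` which contain the functions of the averaged formula and of
the abelian case (`HasKnown`). In part (B) the heights are given by their known properties
(`Heights`), as in the team's `MP_a2beea_nt.RationalConstituents`: the theorems of Colmez, the
averaged formula and the abelian case.
-/

open scoped Classical
open Finset Pool.Agent.Q271.CM

set_option linter.unusedSectionVars false

namespace Pool.Agent.Results.MP_a2beea_nt.OneSignatureFaltings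

attribute [local instance] instAct

/-- The formula of the question, summed over `ψ ∈ Φ`: the formula for the Faltings height. -/
def FaltingsFormula {K : Type} [Field K] [NumberField K] {c : K ≃ₐ[ℚ] K}
    {Z : ((K ≃ₐ[ℚ] K) → ℚ) →ₗ[ℚ] ℝ} (H : Heights c Z) (E : IntermediateField ℚ K)
    (Φ : Finset (Emb E)) : Prop :=
  ∑ ψ ∈ Φ, H.ht E ψ Φ = ∑ ψ ∈ Φ, Z (a0 E ψ Φ)

/-- The statement for heights. -/
theorem heights_part (K : Type) [Field K] [NumberField K] [IsGalois ℚ K] (c : K ≃ₐ[ℚ] K)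
    (hc : ∀ (φ : K →+* ℂ) (x : K), φ (c x) = starRingEnd ℂ (φ x)) (hc1 : c ≠ 1)
    (K0 : IntermediateField ℚ K) (h2 : degree K0 = 2) (hK0 : IsCMSub c K0)
    (Z : ((K ≃ₐ[ℚ] K) → ℚ) →ₗ[ℚ] ℝ) (H : Heights c Z) :
    (∀ r : ℕ, 2 ≤ r → 2 * (r + 2) ≤ Module.finrank ℚ K →
      ((∀ E : IntermediateField ℚ K, IsCMSub c E → ∀ Φ : Finset (Emb E), IsType c Φ →
        FaltingsFormula H E Φ) ↔
      ∀ Φ : Finset (Emb (⊤ : IntermediateField ℚ K)), IsType c Φ → sig K0 Φ = r →
        FaltingsFormula H ⊤ Φ)) ∧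
    ∀ Φ : Finset (Emb (⊤ : IntermediateField ℚ K)), IsType c Φ → sig K0 Φ ≤ 1 →
      FaltingsFormula H ⊤ Φ := by
  have htop := isCMSub_top hc1
  obtain ⟨L, hL⟩ := H.linear
  have hidx := index_fixing h2
  have hcH := notMem_fixing hK0
  have hc2 := c_sq hc
  have hcen := c_cen hc
  have hD1 := D_one hc hc1 H L hL
  have hG := sum_Ev (L - Z) hD1
  have hE0 := sum_HF hc H L hL h2 hK0
  have h1c := Ev_one_c hc hc1 H L hL
  have hcard := card_HF (K := K) (K0 := K0) h2
  -- the formula in terms of the functional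
  have hform : ∀ E : IntermediateField ℚ K, IsCMSub c E → ∀ Φ : Finset (Emb E), IsType c Φ →
      (FaltingsFormula H E Φ ↔ (L - Z) (∑ ψ ∈ Φ, a0 E ψ Φ) = 0) := by
    intro E hE Φ hΦ
    unfold FaltingsFormula
    rw [LinearMap.sub_apply, sub_eq_zero, map_sum, map_sum,
      Finset.sum_congr rfl (fun ψ _ => hL E hE Φ hΦ ψ)]
  have himg : ∀ S : Finset (K ≃ₐ[ℚ] K), (L - Z) (∑ ψ ∈ img S, a0 ⊤ ψ (img S)) =
      ∑ a ∈ S, ∑ b ∈ S, Ev (L - Z) (b * a⁻¹) := by
    intro S
    rw [map_sum]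
    unfold img
    rw [Finset.sum_image (fun a _ b _ h => ev0_inj h)]
    apply Finset.sum_congr rfl
    intro a _
    have h4 := a0_img S a
    unfold img at h4
    rw [h4, map_sum]
    rfl
  refine ⟨fun r hr0 hr => ⟨fun h Φ hΦ _ => h ⊤ htop Φ hΦ, fun h E hE Φ hΦ => ?_⟩,
    fun Φ hΦ hsig => ?_⟩
  · have key := pair_sig hc2 hcen hidx hcH hE0 hG h1c hr0 (by omega) (by
      intro S hS hSr
      have h3 := h (img S) (img_isType hS) (by rw [sig_img, hSr])
      rw [hform ⊤ htop _ (img_isType hS), himg] at h3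
      exact h3)
    rw [hform E hE Φ hΦ]
    refine D_sym_zero hc2 hcen hD1 key (∑ ψ ∈ Φ, a0 E ψ Φ) ?_ ?_ ((#Φ : ℚ) / 2) ?_
    · intro x g
      rw [Finset.sum_apply, Finset.sum_apply]
      apply Finset.sum_congr rfl
      intro ψ _
      exact Q264.CM.aa_conj (G := K ≃ₐ[ℚ] K) ψ Φ x g
    · intro g
      rw [Finset.sum_apply, Finset.sum_apply]
      exact sum_aa_inv (G := K ≃ₐ[ℚ] K) Φ g
    · intro g
      rw [Finset.sum_apply, Finset.sum_apply, ← Finset.sum_add_distrib]
      have h5 : ∀ ψ ∈ Φ, a0 E ψ Φ g + a0 E ψ Φ (c * g) = 1 := fun ψ _ =>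
        Q264.CM.aa_add_c hc2 hcen hΦ ψ g
      rw [Finset.sum_congr rfl h5, Finset.sum_const, nsmul_eq_mul, mul_one]
      ring
  · -- signatures (n, 0) and (n - 1, 1)
    have hS : ∃ S : Finset (K ≃ₐ[ℚ] K), img S = Φ := by
      refine ⟨univ.filter fun b => ev0 b ∈ Φ, ?_⟩
      ext ψ
      obtain ⟨b, rfl⟩ := ev0_surj ψ
      rw [ev0_mem, Finset.mem_filter]
      simp
    obtain ⟨S, rfl⟩ := hS
    have hST : ∀ g, g ∈ S ↔ c * g ∉ S := by
      intro g
      have := hΦ (ev0 g)
      rw [ev0_mem] at this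
      rw [this]
      change ¬ c • ev0 g ∈ img S ↔ _
      rw [smul_ev0, ev0_mem]
    rw [hform ⊤ htop _ hΦ, himg]
    rw [sig_img] at hsig
    set T : Finset (K ≃ₐ[ℚ] K) := (S.filter fun g => g ∉ K0.fixingSubgroup).image (fun g => c * g)
      with hTdef
    have hT : ∀ t ∈ T, t ∈ K0.fixingSubgroup := by
      intro t ht
      obtain ⟨g, hg, rfl⟩ := Finset.mem_image.1 ht
      exact (mem_iff_c hidx hcH g).2 (Finset.mem_filter.1 hg).2
    have hTc : #T ≤ 1 := Finset.card_image_le.trans hsig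
    have hS2 : S = typ c K0.fixingSubgroup T := by
      ext g
      unfold typ
      simp only [mem_filter, mem_univ, true_and]
      have e1 : ∀ g, g ∈ T ↔ c * g ∈ S ∧ c * g ∉ K0.fixingSubgroup := by
        intro g
        rw [hTdef, Finset.mem_image]
        constructor
        · rintro ⟨a, ha, rfl⟩
          rw [← mul_assoc, hc2, one_mul]
          exact Finset.mem_filter.1 ha
        · intro h
          exact ⟨c * g, Finset.mem_filter.2 h, by rw [← mul_assoc, hc2, one_mul]⟩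
      rw [e1, e1, ← mul_assoc, hc2, one_mul, mem_iff_c hidx hcH]
      have := hST g
      tauto
    rw [hS2, double_sum hc2 hcen hidx hcH hE0 hG hT]
    rcases Finset.card_le_one_iff_subset_singleton.1 hTc with ⟨t, ht⟩
    rcases Finset.subset_singleton_iff.1 ht with h3 | h3
    · rw [h3]; simp
    · rw [h3, Finset.sum_singleton, Finset.sum_singleton, mul_inv_cancel]
      unfold dd
      rw [mul_one, h1c]
      ring

lemma formula_mkH {K : Type} [Field K] [NumberField K] [IsGalois ℚ K] {c : K ≃ₐ[ℚ] K}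
    (hc : ∀ (φ : K →+* ℂ) (x : K), φ (c x) = starRingEnd ℂ (φ x))
    (V : Submodule ℚ ((K ≃ₐ[ℚ] K) → ℚ)) (hV : HasKnown c V)
    (lam : ((K ≃ₐ[ℚ] K) → ℚ) →ₗ[ℚ] ℚ) (hlam : V ≤ LinearMap.ker lam)
    (E : IntermediateField ℚ K) (Φ : Finset (Emb E)) :
    FaltingsFormula (mkH hc V hV lam hlam) E Φ ↔ lam (∑ ψ ∈ Φ, a0 E ψ Φ) = 0 := by
  unfold FaltingsFormula
  simp only [mkH_ht, LinearMap.zero_apply, Finset.sum_const_zero]
  rw [← Rat.cast_sum, map_sum]
  exact_mod_cast Iff.rfl

/-- **The types of one signature decide, for Faltings heights.** -/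
theorem result (K : Type) [Field K] [NumberField K] [IsGalois ℚ K] (c : K ≃ₐ[ℚ] K)
    (hc : ∀ (φ : K →+* ℂ) (x : K), φ (c x) = starRingEnd ℂ (φ x)) (hc1 : c ≠ 1)
    (K0 : IntermediateField ℚ K) (h2 : degree K0 = 2) (hK0 : IsCMSub c K0) :
    -- (A) subspaces of functions; no hypothesis on heights
    (∀ V : Submodule ℚ ((K ≃ₐ[ℚ] K) → ℚ), HasKnown c V →
      (∀ r : ℕ, 2 ≤ r → 2 * (r + 2) ≤ Module.finrank ℚ K →
        ((∀ E : IntermediateField ℚ K, IsCMSub c E → ∀ Φ : Finset (Emb E), IsType c Φ →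
          ∑ ψ ∈ Φ, a0 E ψ Φ ∈ V) ↔
        ∀ Φ : Finset (Emb (⊤ : IntermediateField ℚ K)), IsType c Φ → sig K0 Φ = r →
          ∑ ψ ∈ Φ, a0 ⊤ ψ Φ ∈ V)) ∧
      ∀ Φ : Finset (Emb (⊤ : IntermediateField ℚ K)), IsType c Φ → sig K0 Φ ≤ 1 →
        ∑ ψ ∈ Φ, a0 ⊤ ψ Φ ∈ V) ∧
    -- (B) heights with the published properties
    ∀ (Z : ((K ≃ₐ[ℚ] K) → ℚ) →ₗ[ℚ] ℝ) (H : Heights c Z),
      (∀ r : ℕ, 2 ≤ r → 2 * (r + 2) ≤ Module.finrank ℚ K →
        ((∀ E : IntermediateField ℚ K, IsCMSub c E → ∀ Φ : Finset (Emb E), IsType c Φ →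
          FaltingsFormula H E Φ) ↔
        ∀ Φ : Finset (Emb (⊤ : IntermediateField ℚ K)), IsType c Φ → sig K0 Φ = r →
          FaltingsFormula H ⊤ Φ)) ∧
      ∀ Φ : Finset (Emb (⊤ : IntermediateField ℚ K)), IsType c Φ → sig K0 Φ ≤ 1 →
        FaltingsFormula H ⊤ Φ := by
  have htop := isCMSub_top hc1
  refine ⟨fun V hV => ⟨fun r hr0 hr => ⟨fun h Φ hΦ _ => h ⊤ htop Φ hΦ, fun h E hE Φ hΦ => ?_⟩,
    fun Φ hΦ hs => ?_⟩, fun Z H => heights_part K c hc hc1 K0 h2 hK0 Z H⟩
  · by_contra hcon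
    obtain ⟨lam, hlam1, hlam2⟩ := Submodule.exists_le_ker_of_notMem hcon
    have h1 := ((heights_part K c hc hc1 K0 h2 hK0 0 (mkH hc V hV lam hlam2)).1 r hr0 hr).2 (by
      intro Φ' hΦ' hs
      rw [formula_mkH]
      exact hlam2 (h Φ' hΦ' hs)) E hE Φ hΦ
    rw [formula_mkH] at h1
    exact hlam1 h1
  · by_contra hcon
    obtain ⟨lam, hlam1, hlam2⟩ := Submodule.exists_le_ker_of_notMem hcon
    have h1 := (heights_part K c hc hc1 K0 h2 hK0 0 (mkH hc V hV lam hlam2)).2 Φ hΦ hs
    rw [formula_mkH] at h1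
    exact hlam1 h1

end Pool.Agent.Results.MP_a2beea_nt.OneSignatureFaltings
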