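import Pool.Agent.Q264.CM.Two

/-!
# MP_a2beea_nt — the exact reach of the averaged Colmez formula and of the abelian case

`K` is a CM field which is Galois over `ℚ`, `c` its complex conjugation, `G = Gal(K/ℚ)`.
The definitions are written for a finite Galois extension `K/k`; they are used for `k = ℚ`.
-/

open scoped Classical
open Finset

set_option linter.unusedSectionVars false

namespace Pool.Agent.Results.MP_a2beea_nt.RationalConstituents

section defs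

variable {k K : Type} [Field k] [Field K] [Algebra k K] [FiniteDimensional k K]

/-- The set `H_E` of embeddings of the subfield `E` (all of them have their image in the Galois
field `K`). -/
abbrev Emb (E : IntermediateField k K) : Type := E →ₐ[k] K

/-- `g ∘ ψ` for `g ∈ Gal(K/k)` and an embedding `ψ` of the subfield `E` into `K`. -/
def act (g : K ≃ₐ[k] K) {E : IntermediateField k K} (ψ : Emb E) : Emb E :=
  (g : K →ₐ[k] K).comp ψ

/-- A subfield `E` of the Galois CM field `K` is a CM field iff complex conjugation `c` is not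
trivial on `E`. -/
def IsCMSub (c : K ≃ₐ[k] K) (E : IntermediateField k K) : Prop := ∃ x ∈ E, c x ≠ x

/-- CM types: exactly one of `ψ`, `c ∘ ψ` belongs to `Φ`. -/
def IsType (c : K ≃ₐ[k] K) {E : IntermediateField k K} (Φ : Finset (Emb E)) : Prop :=
  ∀ ψ, ψ ∈ Φ ↔ act c ψ ∉ Φ

/-- Colmez's class function `a⁰_{E,ψ,Φ}` on `Gal(K/k)`. -/
noncomputable def a0 (E : IntermediateField k K) (ψ : Emb E) (Φ : Finset (Emb E))
    (g : K ≃ₐ[k] K) : ℚ :=
  (Nat.card {η : K ≃ₐ[k] K // act (η⁻¹ * g * η) ψ ∈ Φ} : ℚ) / Nat.card (K ≃ₐ[k] K)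

/-- `E` is an abelian extension of `k`. -/
def IsAbelianExt (E : IntermediateField k K) : Prop :=
  IsGalois k E ∧ ∀ σ τ : E ≃ₐ[k] E, σ * τ = τ * σ

/-- the degree `[E : k]` -/
noncomputable def degree (E : IntermediateField k K) : ℕ := Module.finrank k E

end defs

/-- What is proved about the heights `ht(E,ψ,Φ)` of the problem; `Z a = Z^∞(a^*,0)`. -/
structure Heights {K : Type} [Field K] [NumberField K] (c : K ≃ₐ[ℚ] K)
    (Z : ((K ≃ₐ[ℚ] K) → ℚ) →ₗ[ℚ] ℝ) where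
  /-- the height `ht(E,ψ,Φ)` -/
  ht : (E : IntermediateField ℚ K) → Emb E → Finset (Emb E) → ℝ
  /-- Colmez: the height is a linear functional of `a⁰`. -/
  linear : ∃ L : ((K ≃ₐ[ℚ] K) → ℚ) →ₗ[ℚ] ℝ, ∀ E : IntermediateField ℚ K, IsCMSub c E →
    ∀ Φ : Finset (Emb E), IsType c Φ → ∀ ψ : Emb E, ht E ψ Φ = L (a0 E ψ Φ)
  /-- `ht(E,ψ,Φ) + ht(E,cψ,Φ) = log 2π = Z^∞(1,0)` -/
  conj : ∀ E : IntermediateField ℚ K, IsCMSub c E → ∀ Φ : Finset (Emb E), IsType c Φ →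
    ∀ ψ : Emb E, ht E ψ Φ + ht E (act c ψ) Φ = Z 1
  /-- the averaged formula (Andreatta-Goren-Howard-Madapusi Pera, Yuan-Zhang) -/
  average : ∀ E : IntermediateField ℚ K, IsCMSub c E →
    ∑ Φ : Finset (Emb E) with IsType c Φ, ∑ ψ ∈ Φ, ht E ψ Φ =
      ∑ Φ : Finset (Emb E) with IsType c Φ, ∑ ψ ∈ Φ, Z (a0 E ψ Φ)
  /-- the abelian case (Colmez, Obus) -/
  abelian : ∀ E : IntermediateField ℚ K, IsCMSub c E → IsAbelianExt E →
    ∀ Φ : Finset (Emb E), IsType c Φ → ∀ ψ : Emb E, ht E ψ Φ = Z (a0 E ψ Φ)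

/-- For every `k` prime to the order of the group, `f(g^k) - f(g)` depends only on the class of
`g` in the abelianization. -/
def RatOrAb {G : Type} [Group G] (f : G → ℚ) : Prop := ∀ k : ℕ, k.Coprime (Nat.card G) →
  ∀ g h : G, g⁻¹ * h ∈ commutator G → f (g ^ k) - f g = f (h ^ k) - f h

/-- The subspace `V` of the functions on `Gal(K/ℚ)` contains the constant function `1`, the sum of `a⁰_{E,ψ,Φ}` over all
CM types `Φ` of `E` and all `ψ ∈ Φ`, for every CM field `E` in `K`, and the functions `a⁰_{E,ψ,Φ}` for the CM fields `E` in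
`K` which are abelian over `ℚ`. -/
structure HasKnown {K : Type} [Field K] [NumberField K] (c : K ≃ₐ[ℚ] K)
    (V : Submodule ℚ ((K ≃ₐ[ℚ] K) → ℚ)) : Prop where
  one : (1 : (K ≃ₐ[ℚ] K) → ℚ) ∈ V
  average : ∀ E : IntermediateField ℚ K, IsCMSub c E →
    ∑ Φ : Finset (Emb E) with IsType c Φ, ∑ ψ ∈ Φ, a0 E ψ Φ ∈ V
  abelian : ∀ E : IntermediateField ℚ K, IsCMSub c E → IsAbelianExt E →
    ∀ Φ : Finset (Emb E), IsType c Φ → ∀ ψ : Emb E, a0 E ψ Φ ∈ V

/-- (0), free of hypotheses on heights: a rational combination `∑ w_ψ a⁰_{E,ψ,Φ}` is in the span of these functions if and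
only if it satisfies the condition `RatOrAb`. -/
def Span {K : Type} [Field K] [NumberField K] (c : K ≃ₐ[ℚ] K) : Prop :=
  ∀ E : IntermediateField ℚ K, IsCMSub c E → ∀ Φ : Finset (Emb E), IsType c Φ → ∀ w : Emb E → ℚ,
    ((∀ V : Submodule ℚ ((K ≃ₐ[ℚ] K) → ℚ), HasKnown c V → ∑ ψ : Emb E, w ψ • a0 E ψ Φ ∈ V) ↔
      RatOrAb (∑ ψ : Emb E, w ψ • a0 E ψ Φ))

/-- (0'), free of hypotheses on heights: the cases in which all `a⁰_{E,ψ,Φ}` (or their sums over `ψ ∈ Φ`) are in the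
span. -/
def SpanCases {K : Type} [Field K] [NumberField K] (c : K ≃ₐ[ℚ] K) : Prop :=
  ∀ V : Submodule ℚ ((K ≃ₐ[ℚ] K) → ℚ), HasKnown c V →
    ((∀ (g : K ≃ₐ[ℚ] K) (m : ℕ), m.Coprime (Nat.card (K ≃ₐ[ℚ] K)) → IsConj g (g ^ m)) →
      ∀ E : IntermediateField ℚ K, IsCMSub c E → ∀ Φ : Finset (Emb E), IsType c Φ →
        ∀ ψ : Emb E, a0 E ψ Φ ∈ V) ∧
    ∀ F K0 : IntermediateField ℚ K, degree K0 = 2 → IsCMSub c K0 →
      ((∀ i j i' j' : Emb F, i ≠ j → i' ≠ j' →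
          ∃ s : K ≃ₐ[ℚ] K, act s i = i' ∧ act s j = j') →
        ∀ Φ : Finset (Emb (F ⊔ K0)), IsType c Φ → ∀ ψ : Emb (F ⊔ K0), a0 (F ⊔ K0) ψ Φ ∈ V) ∧
      ((∀ i j i' j' : Emb F, i ≠ j → i' ≠ j' →
          ∃ s : K ≃ₐ[ℚ] K, (act s i = i' ∧ act s j = j') ∨ (act s i = j' ∧ act s j = i')) →
        ∀ Φ : Finset (Emb (F ⊔ K0)), IsType c Φ → ∑ ψ ∈ Φ, a0 (F ⊔ K0) ψ Φ ∈ V)

open Q264.CM

section lemmas

variable {k K : Type} [Field k] [Field K] [Algebra k K] [FiniteDimensional k K]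

@[instance_reducible] noncomputable def instAct (E : IntermediateField k K) :
    MulAction (K ≃ₐ[k] K) (Emb E) where
  smul g ψ := act g ψ
  one_smul := fun ψ => by ext x; rfl
  mul_smul := fun g h ψ => by ext x; rfl

attribute [local instance] instAct

lemma a0_eq (E : IntermediateField k K) (ψ : Emb E) (Φ : Finset (Emb E)) :
    a0 E ψ Φ = aa (G := K ≃ₐ[k] K) ψ Φ := rfl

lemma isType_iff (c : K ≃ₐ[k] K) {E : IntermediateField k K} (Φ : Finset (Emb E)) :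
    IsType c Φ ↔ isT c Φ := Iff.rfl

variable [IsGalois k K]

lemma exists_ext {E : IntermediateField k K} (ψ : Emb E) :
    ∃ g : K ≃ₐ[k] K, g • (E.val : Emb E) = ψ := by
  refine ⟨AlgEquiv.ofBijective (ψ.liftNormal K) (AlgHom.normal_bijective k K K _), ?_⟩
  ext x
  change (ψ.liftNormal K) (algebraMap E K x) = ψ x
  rw [AlgHom.liftNormal_commutes]; rfl

lemma stab_iff {E : IntermediateField k K} (g : K ≃ₐ[k] K) :
    g • (E.val : Emb E) = E.val ↔ g ∈ E.fixingSubgroup := by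
  rw [IntermediateField.mem_fixingSubgroup_iff]
  constructor
  · intro h x hx
    exact DFunLike.congr_fun h (⟨x, hx⟩ : E)
  · intro h
    ext x
    exact h x x.2

lemma free_of {c : K ≃ₐ[k] K} (hcen : ∀ g, c * g = g * c) {E : IntermediateField k K}
    (hE : IsCMSub c E) (ψ : Emb E) : c • ψ ≠ ψ := by
  intro h
  obtain ⟨g, rfl⟩ := exists_ext ψ
  have h1 : g • c • (E.val : Emb E) = g • (E.val : Emb E) := by
    rw [smul_smul, ← hcen, mul_smul, h]
  have h2 : c • (E.val : Emb E) = E.val := smul_left_cancel g h1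
  rw [stab_iff, IntermediateField.mem_fixingSubgroup_iff] at h2
  obtain ⟨x, hx, hx2⟩ := hE
  exact hx2 (h2 x hx)

lemma isCMSub_fixed {c : K ≃ₐ[k] K} {C : Subgroup (K ≃ₐ[k] K)} (hC : c ∉ C) :
    IsCMSub c (IntermediateField.fixedField C) := by
  by_contra h
  apply hC
  rw [← IntermediateField.fixingSubgroup_fixedField C,
    IntermediateField.mem_fixingSubgroup_iff]
  intro x hx
  by_contra h2
  exact h ⟨x, hx, h2⟩

/-- rational functionals extended to real ones -/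
noncomputable def toReal {G : Type} (lam : (G → ℚ) →ₗ[ℚ] ℚ) : (G → ℚ) →ₗ[ℚ] ℝ :=
  (Algebra.linearMap ℚ ℝ).comp lam

lemma toReal_apply {G : Type} (lam : (G → ℚ) →ₗ[ℚ] ℚ) (f : G → ℚ) :
    toReal lam f = ((lam f : ℚ) : ℝ) := rfl

lemma fix_of_abelian {E : IntermediateField k K} (hE : IsAbelianExt E)
    {g : K ≃ₐ[k] K} (hg : g ∈ commutator (K ≃ₐ[k] K)) (ψ : Emb E) : g • ψ = ψ := by
  obtain ⟨hgal, hcomm⟩ := hE
  have : Normal k E := hgal.to_normal
  have h1 : ∀ g ∈ commutator (K ≃ₐ[k] K), AlgEquiv.restrictNormalHom E g = 1 := by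
    intro g hg
    have h2 : commutator (K ≃ₐ[k] K) ≤ (AlgEquiv.restrictNormalHom (F := k) (K₁ := K) E).ker := by
      rw [commutator_def, Subgroup.commutator_le]
      intro a _ b _
      rw [MonoidHom.mem_ker, map_commutatorElement, commutatorElement_eq_one_iff_mul_comm]
      exact hcomm _ _
    exact h2 hg
  obtain ⟨s, rfl⟩ := exists_ext ψ
  have h3 : g * s = s * (s⁻¹ * g * s) := by group
  rw [smul_smul, h3, mul_smul]
  congr 1
  have h4 : s⁻¹ * g * s ∈ commutator (K ≃ₐ[k] K) := by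
    have := Subgroup.Normal.conj_mem (inferInstance : (commutator (K ≃ₐ[k] K)).Normal) g hg s⁻¹
    rwa [inv_inv] at this
  have h5 := h1 _ h4
  ext x
  have h6 := AlgEquiv.restrictNormal_commutes (s⁻¹ * g * s) E x
  have h7 : (s⁻¹ * g * s).restrictNormal E = 1 := h5
  rw [h7] at h6
  exact h6.symm

lemma index_fixing {K0 : IntermediateField k K} (h : degree K0 = 2) :
    K0.fixingSubgroup.index = 2 := by
  unfold degree at h
  have h1 := K0.fixingSubgroup.card_mul_index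
  have h2 := IsGalois.card_fixingSubgroup_eq_finrank K0
  have h3 := IsGalois.card_aut_eq_finrank k K
  have h4 := Module.finrank_mul_finrank k K0 K
  rw [h2, h3, ← h4, h, mul_comm] at h1
  exact Nat.eq_of_mul_eq_mul_right (Module.finrank_pos (R := K0) (M := K)) h1

lemma NN_sup {F K0 : IntermediateField k K} (hK0 : K0.fixingSubgroup.index = 2)
    (a b g : K ≃ₐ[k] K) :
    NN (a • ((F ⊔ K0).val : Emb (F ⊔ K0))) (b • ((F ⊔ K0).val : Emb (F ⊔ K0))) g =
      if b⁻¹ * g * a ∈ K0.fixingSubgroup then NN (a • (F.val : Emb F)) (b • (F.val : Emb F)) g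
      else 0 := by
  have key : ∀ (E : IntermediateField k K) (η : K ≃ₐ[k] K),
      (η⁻¹ * g * η) • a • (E.val : Emb E) = b • (E.val : Emb E) ↔
        b⁻¹ * (η⁻¹ * g * η) * a ∈ E.fixingSubgroup := by
    intro E η
    rw [← stab_iff, mul_assoc b⁻¹, mul_smul b⁻¹, inv_smul_eq_iff, mul_smul (η⁻¹ * g * η) a]
  have key2 : ∀ η : K ≃ₐ[k] K,
      (η⁻¹ * g * η) • a • ((F ⊔ K0).val : Emb (F ⊔ K0)) = b • ((F ⊔ K0).val : Emb (F ⊔ K0)) ↔
        ((η⁻¹ * g * η) • a • (F.val : Emb F) = b • (F.val : Emb F) ∧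
          b⁻¹ * g * a ∈ K0.fixingSubgroup) := by
    intro η
    rw [key, key, IntermediateField.fixingSubgroup_sup, Subgroup.mem_inf,
      index_two_mem hK0]
  unfold NN
  by_cases h : b⁻¹ * g * a ∈ K0.fixingSubgroup
  · rw [if_pos h]
    congr 1
    refine Nat.card_congr (Equiv.subtypeEquivRight fun η => ?_)
    rw [key2]; tauto
  · rw [if_neg h]
    have : IsEmpty {η : K ≃ₐ[k] K // (η⁻¹ * g * η) • a • ((F ⊔ K0).val : Emb (F ⊔ K0)) =
        b • ((F ⊔ K0).val : Emb (F ⊔ K0))} := by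
      constructor
      rintro ⟨η, hη⟩
      exact h ((key2 η).mp hη).2
    rw [Nat.card_of_isEmpty]; simp

lemma mem_pow_iff {K0 : IntermediateField k K} (hK0 : K0.fixingSubgroup.index = 2)
    (a b g : K ≃ₐ[k] K) {m : ℕ} (hm : Odd m) :
    b⁻¹ * g ^ m * a ∈ K0.fixingSubgroup ↔ b⁻¹ * g * a ∈ K0.fixingSubgroup := by
  have h1 := index_two_pow hK0 g hm
  rw [Subgroup.mul_mem_iff_of_index_two hK0, Subgroup.mul_mem_iff_of_index_two hK0,
    Subgroup.mul_mem_iff_of_index_two hK0, Subgroup.mul_mem_iff_of_index_two hK0, h1]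

lemma mem_symm_iff {K0 : IntermediateField k K} (hK0 : K0.fixingSubgroup.index = 2)
    (a b g : K ≃ₐ[k] K) :
    b⁻¹ * g * a ∈ K0.fixingSubgroup ↔ a⁻¹ * g * b ∈ K0.fixingSubgroup := by
  simp only [Subgroup.mul_mem_iff_of_index_two hK0, inv_mem_iff]
  tauto

lemma NN_sup_pow {F K0 : IntermediateField k K} (hK0 : K0.fixingSubgroup.index = 2)
    {m : ℕ} (hm : m.Coprime (Nat.card (K ≃ₐ[k] K))) (hodd : Odd m)
    (h2 : ∀ i j i' j' : Emb F, i ≠ j → i' ≠ j' → ∃ s : K ≃ₐ[k] K, s • i = i' ∧ s • j = j')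
    (ψ1 ψ2 : Emb (F ⊔ K0)) (g : K ≃ₐ[k] K) : NN ψ1 ψ2 (g ^ m) = NN ψ1 ψ2 g := by
  obtain ⟨a, rfl⟩ := exists_ext ψ1
  obtain ⟨b, rfl⟩ := exists_ext ψ2
  rw [NN_sup hK0, NN_sup hK0]
  simp only [mem_pow_iff hK0 a b g hodd]
  rw [NN_two (h2 := h2) hm]

lemma NN_sup_homog {F K0 : IntermediateField k K} (hK0 : K0.fixingSubgroup.index = 2)
    {m : ℕ} (hm : m.Coprime (Nat.card (K ≃ₐ[k] K))) (hodd : Odd m)
    (h2 : ∀ i j i' j' : Emb F, i ≠ j → i' ≠ j' →
      ∃ s : K ≃ₐ[k] K, (s • i = i' ∧ s • j = j') ∨ (s • i = j' ∧ s • j = i'))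
    (ψ1 ψ2 : Emb (F ⊔ K0)) (g : K ≃ₐ[k] K) :
    NN ψ1 ψ2 (g ^ m) + NN ψ2 ψ1 (g ^ m) = NN ψ1 ψ2 g + NN ψ2 ψ1 g := by
  obtain ⟨a, rfl⟩ := exists_ext ψ1
  obtain ⟨b, rfl⟩ := exists_ext ψ2
  rw [NN_sup hK0, NN_sup hK0, NN_sup hK0, NN_sup hK0]
  simp only [mem_pow_iff hK0 _ _ g hodd, mem_symm_iff hK0 b a g]
  by_cases h : b⁻¹ * g * a ∈ K0.fixingSubgroup
  · simp only [if_pos h]
    exact NN_homog (h2 := h2) hm _ _ g
  · simp only [if_neg h]

end lemmas

section rat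

attribute [local instance] instAct

variable {K : Type} [Field K] [NumberField K]
variable {c : K ≃ₐ[ℚ] K} (hc : ∀ (φ : K →+* ℂ) (x : K), φ (c x) = starRingEnd ℂ (φ x))
include hc

lemma c_sq : c * c = 1 := by
  ext x
  obtain ⟨φ⟩ := (inferInstance : Nonempty (K →+* ℂ))
  apply φ.injective
  change φ (c (c x)) = φ x
  rw [hc, hc, Complex.conj_conj]

lemma c_cen (g : K ≃ₐ[ℚ] K) : c * g = g * c := by
  ext x
  obtain ⟨φ⟩ := (inferInstance : Nonempty (K →+* ℂ))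
  apply φ.injective
  change φ (c (g x)) = φ (g (c x))
  rw [hc]
  have := hc (φ.comp (g : K →+* K)) x
  exact this.symm

lemma forward_gen [IsGalois ℚ K] (hc1 : c ≠ 1) {Z : ((K ≃ₐ[ℚ] K) → ℚ) →ₗ[ℚ] ℝ}
    (H : Heights c Z) (L : ((K ≃ₐ[ℚ] K) → ℚ) →ₗ[ℚ] ℝ)
    (hL : ∀ E : IntermediateField ℚ K, IsCMSub c E →
      ∀ Φ : Finset (Emb E), IsType c Φ → ∀ ψ : Emb E, H.ht E ψ Φ = L (a0 E ψ Φ))
    (f : (K ≃ₐ[ℚ] K) → ℚ) (hf : ∀ x g, f (x * g * x⁻¹) = f g) (κ : ℚ)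
    (hκ : ∀ g, f g + f (c * g) = 2 * κ) (hcond : RatOrAb f) : L f = Z f := by
  have hc2 := c_sq hc
  have hcen := c_cen hc
  have hD1 : (L - Z) 1 = 0 := by
    have htop : IsCMSub c (⊤ : IntermediateField ℚ K) := by
      by_contra h
      apply hc1
      ext x
      by_contra h2
      exact h ⟨x, IntermediateField.mem_top, h2⟩
    obtain ⟨Φ, hΦ⟩ := types_nonempty (X := Emb (⊤ : IntermediateField ℚ K)) hc2
      (free_of hcen htop)
    let ψ : Emb (⊤ : IntermediateField ℚ K) := (⊤ : IntermediateField ℚ K).val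
    have h1 := H.conj ⊤ htop Φ hΦ ψ
    rw [hL ⊤ htop Φ hΦ, hL ⊤ htop Φ hΦ, ← map_add] at h1
    have h2 : a0 ⊤ ψ Φ + a0 ⊤ (act c ψ) Φ = 1 := by
      ext g
      exact aa_c_smul hc2 hcen hΦ ψ g
    rw [h2] at h1
    rw [LinearMap.sub_apply, h1, sub_self]
  have key : (L - Z) f = 0 := by
    refine group_main (X := Emb (IntermediateField.fixedField (commutator (K ≃ₐ[ℚ] K))))
      hc2 hc1 hcen (L - Z) hD1 ?_ (IntermediateField.val _) exists_ext ?_ ?_ f hf κ hκ hcond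
    · intro C hC
      have hE : IsCMSub c (IntermediateField.fixedField C) := isCMSub_fixed hC
      have hfree := free_of hcen hE
      have h1 : (PP ((K ≃ₐ[ℚ] K) ⧸ C) c : (K ≃ₐ[ℚ] K) → ℚ) =
          PP (Emb (IntermediateField.fixedField C)) c := by
        refine PP_transport c (IntermediateField.val _) exists_ext C fun g => ?_
        rw [stab_iff, IntermediateField.fixingSubgroup_fixedField]
      rw [h1]
      have h2 := avg (X := Emb (IntermediateField.fixedField C)) hc2 hcen hfree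
      have h3 := H.average _ hE
      have h4 : (L - Z) (∑ Φ ∈ types (Emb (IntermediateField.fixedField C)) c,
          ∑ x ∈ Φ, aa x Φ) = 0 := by
        rw [LinearMap.sub_apply, sub_eq_zero, map_sum, map_sum]
        simp_rw [map_sum]
        refine Eq.trans ?_ h3
        apply Finset.sum_congr rfl
        intro Φ hΦ
        apply Finset.sum_congr rfl
        intro x hx
        rw [hL _ hE Φ (Finset.mem_filter.mp hΦ).2]
        rfl
      rw [h2, map_smul, map_add, map_smul, hD1, smul_zero, zero_add] at h4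
      rcases smul_eq_zero.mp h4 with h5 | h5
      · exfalso
        obtain ⟨Φ, hΦ⟩ := types_nonempty (X := Emb (IntermediateField.fixedField C)) hc2 hfree
        have h6 : 0 < #(types (Emb (IntermediateField.fixedField C)) c) := by
          apply Finset.card_pos.mpr
          exact ⟨Φ, by simp [types, hΦ]⟩
        have h7 : (0 : ℚ) < #(types (Emb (IntermediateField.fixedField C)) c) := by
          exact_mod_cast h6
        linarith
      · exact h5
    · intro g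
      rw [stab_iff, IntermediateField.fixingSubgroup_fixedField]
    · intro hcC Φ hΦ
      have hE : IsCMSub c (IntermediateField.fixedField (commutator (K ≃ₐ[ℚ] K))) :=
        isCMSub_fixed hcC
      have h1 := H.abelian _ hE ⟨?_, ?_⟩ Φ hΦ (IntermediateField.val _)
      · rw [hL _ hE Φ hΦ] at h1
        rw [LinearMap.sub_apply, sub_eq_zero]
        exact h1
      · exact IsGalois.of_fixedField_normal_subgroup _
      · intro σ τ
        let e := IsGalois.normalAutEquivQuotient (K := ℚ) (L := K) (commutator (K ≃ₐ[ℚ] K))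
        apply e.symm.injective
        rw [map_mul, map_mul]
        exact mul_comm (G := Abelianization (K ≃ₐ[ℚ] K)) _ _
  rw [LinearMap.sub_apply, sub_eq_zero] at key
  exact key

/-- the heights which refute the converse -/
noncomputable def mkHeights [IsGalois ℚ K] (hc1 : c ≠ 1) (Z : ((K ≃ₐ[ℚ] K) → ℚ) →ₗ[ℚ] ℝ)
    (lam : ((K ≃ₐ[ℚ] K) → ℚ) →ₗ[ℚ] ℚ) (hlam : ∀ f, Cond f → lam f = 0) : Heights c Z where
  ht := fun E ψ Φ => (Z + toReal lam) (a0 E ψ Φ)
  linear := ⟨Z + toReal lam, fun _ _ _ _ _ => rfl⟩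
  conj := by
    intro E hE Φ hΦ ψ
    have h2 : a0 E ψ Φ + a0 E (act c ψ) Φ = 1 := by
      ext g
      exact aa_c_smul (c_sq hc) (c_cen hc) hΦ ψ g
    rw [← map_add, h2, LinearMap.add_apply, toReal_apply, hlam 1]
    · simp
    · exact Cond_of_pow fun _ _ _ => rfl
  average := by
    intro E hE
    have h1 := avg (X := Emb E) (c_sq hc) (c_cen hc) (free_of (c_cen hc) hE)
    have h2 : lam (∑ Φ ∈ types (Emb E) c, ∑ x ∈ Φ, aa x Φ) = 0 := by
      rw [h1]
      apply hlam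
      apply Cond_of_pow
      intro k hk g
      simp only [Pi.smul_apply, Pi.add_apply, Pi.one_apply]
      rw [PP_pow (c_sq hc) hc1 (c_cen hc) hk]
    have h3 : ∀ Φ : Finset (Emb E), ∑ ψ ∈ Φ, (Z + toReal lam) (a0 E ψ Φ) =
        ∑ ψ ∈ Φ, Z (a0 E ψ Φ) + ∑ ψ ∈ Φ, toReal lam (a0 E ψ Φ) := by
      intro Φ
      rw [← Finset.sum_add_distrib]
      rfl
    simp_rw [h3]
    rw [Finset.sum_add_distrib]
    have h4 : ∑ Φ : Finset (Emb E) with IsType c Φ, ∑ ψ ∈ Φ, toReal lam (a0 E ψ Φ) = 0 := by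
      have h5 : ((lam (∑ Φ ∈ types (Emb E) c, ∑ x ∈ Φ, aa x Φ) : ℚ) : ℝ) = 0 := by
        rw [h2]; simp
      rw [← toReal_apply, map_sum] at h5
      simp_rw [map_sum] at h5
      exact h5
    rw [h4, add_zero]
  abelian := by
    intro E hE hab Φ hΦ ψ
    have h1 : toReal lam (a0 E ψ Φ) = 0 := by
      rw [toReal_apply, hlam]
      · simp
      · apply Cond_of_ab
        intro g g' hg
        rw [a0_eq, aa_abelian ψ (fun g hg => fix_of_abelian hab hg ψ),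
          aa_abelian ψ (fun g hg => fix_of_abelian hab hg ψ)]
        have h2 : g' • ψ = g • ψ := by
          have h3 : g' = g * (g⁻¹ * g') := by group
          rw [h3, mul_smul, fix_of_abelian hab hg ψ]
        rw [h2]
    change Z (a0 E ψ Φ) + toReal lam (a0 E ψ Φ) = Z (a0 E ψ Φ)
    rw [h1, add_zero]

/-- Part A: the exact reach. -/
theorem reach [IsGalois ℚ K] (hc1 : c ≠ 1) (Z : ((K ≃ₐ[ℚ] K) → ℚ) →ₗ[ℚ] ℝ)
    (E : IntermediateField ℚ K) (hE : IsCMSub c E) (Φ : Finset (Emb E)) (hΦ : IsType c Φ)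
    (w : Emb E → ℚ) :
    (∀ H : Heights c Z, ∑ ψ : Emb E, (w ψ : ℝ) * H.ht E ψ Φ =
      ∑ ψ : Emb E, (w ψ : ℝ) * Z (a0 E ψ Φ)) ↔
    RatOrAb (∑ ψ : Emb E, w ψ • a0 E ψ Φ) := by
  have hlin : ∀ L : ((K ≃ₐ[ℚ] K) → ℚ) →ₗ[ℚ] ℝ, ∑ ψ : Emb E, (w ψ : ℝ) * L (a0 E ψ Φ) =
      L (∑ ψ : Emb E, w ψ • a0 E ψ Φ) := by
    intro L
    rw [map_sum]
    apply Finset.sum_congr rfl
    intro ψ _
    rw [map_smul, Rat.smul_def]
  constructor
  · intro h
    by_contra hcon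
    have h1 : (∑ ψ : Emb E, w ψ • a0 E ψ Φ) ∉ condSub (K ≃ₐ[ℚ] K) := hcon
    obtain ⟨lam, hlam1, hlam2⟩ := Submodule.exists_le_ker_of_notMem h1
    have h2 := h (mkHeights hc hc1 Z lam (fun f hf => hlam2 hf))
    have h3 : ∑ ψ : Emb E, (w ψ : ℝ) * (Z + toReal lam) (a0 E ψ Φ) =
      ∑ ψ : Emb E, (w ψ : ℝ) * Z (a0 E ψ Φ) := h2
    rw [hlin, hlin, LinearMap.add_apply, toReal_apply] at h3
    apply hlam1
    have h4 : ((lam (∑ ψ : Emb E, w ψ • a0 E ψ Φ) : ℚ) : ℝ) = 0 := by linarith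
    exact_mod_cast h4
  · intro h H
    obtain ⟨L, hL⟩ := H.linear
    have h1 : ∑ ψ : Emb E, (w ψ : ℝ) * H.ht E ψ Φ = ∑ ψ : Emb E, (w ψ : ℝ) * L (a0 E ψ Φ) := by
      apply Finset.sum_congr rfl
      intro ψ _
      rw [hL E hE Φ hΦ]
    rw [h1, hlin, hlin]
    refine forward_gen hc hc1 H L hL _ ?_ ((∑ ψ : Emb E, w ψ) / 2) ?_ h
    · intro x g
      simp only [Finset.sum_apply, Pi.smul_apply]
      apply Finset.sum_congr rfl
      intro ψ _
      rw [a0_eq, aa_conj]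
    · intro g
      simp only [Finset.sum_apply, Pi.smul_apply, smul_eq_mul]
      rw [← Finset.sum_add_distrib]
      have h2 : ∀ ψ : Emb E, w ψ * a0 E ψ Φ g + w ψ * a0 E ψ Φ (c * g) = w ψ := by
        intro ψ
        rw [← mul_add, a0_eq, aa_add_c (c_sq hc) (c_cen hc) hΦ, mul_one]
      simp_rw [h2]
      ring

lemma condSub_known [IsGalois ℚ K] (hc1 : c ≠ 1) : HasKnown c (condSub (K ≃ₐ[ℚ] K)) where
  one := Cond_of_pow fun _ _ _ => rfl
  average := by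
    intro E hE
    have h1 := avg (X := Emb E) (c_sq hc) (c_cen hc) (free_of (c_cen hc) hE)
    have h2 : ∑ Φ : Finset (Emb E) with IsType c Φ, ∑ ψ ∈ Φ, a0 E ψ Φ =
        ∑ Φ ∈ types (Emb E) c, ∑ x ∈ Φ, aa x Φ := rfl
    rw [h2, h1]
    apply Cond_of_pow
    intro k hk g
    simp only [Pi.smul_apply, Pi.add_apply, Pi.one_apply]
    rw [PP_pow (c_sq hc) hc1 (c_cen hc) hk]
  abelian := by
    intro E hE hab Φ hΦ ψ
    apply Cond_of_ab
    intro g g' hg
    rw [a0_eq, aa_abelian ψ (fun g hg => fix_of_abelian hab hg ψ),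
      aa_abelian ψ (fun g hg => fix_of_abelian hab hg ψ)]
    have h2 : g' • ψ = g • ψ := by
      have h3 : g' = g * (g⁻¹ * g') := by group
      rw [h3, mul_smul, fix_of_abelian hab hg ψ]
    rw [h2]

/-- a functional which vanishes on `V`, as a system of heights for `Z = 0` -/
noncomputable def mkKnown [IsGalois ℚ K] (V : Submodule ℚ ((K ≃ₐ[ℚ] K) → ℚ)) (hV : HasKnown c V)
    (lam : ((K ≃ₐ[ℚ] K) → ℚ) →ₗ[ℚ] ℚ) (hlam : V ≤ LinearMap.ker lam) :
    Heights c (0 : ((K ≃ₐ[ℚ] K) → ℚ) →ₗ[ℚ] ℝ) where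
  ht := fun E ψ Φ => toReal lam (a0 E ψ Φ)
  linear := ⟨toReal lam, fun _ _ _ _ _ => rfl⟩
  conj := by
    intro E hE Φ hΦ ψ
    have h2 : a0 E ψ Φ + a0 E (act c ψ) Φ = 1 := by
      ext g
      exact aa_c_smul (c_sq hc) (c_cen hc) hΦ ψ g
    rw [← map_add, h2, toReal_apply, show lam 1 = 0 from hlam hV.one]
    simp
  average := by
    intro E hE
    have h2 : lam (∑ Φ : Finset (Emb E) with IsType c Φ, ∑ ψ ∈ Φ, a0 E ψ Φ) = 0 :=
      hlam (hV.average E hE)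
    have h5 : ((lam (∑ Φ : Finset (Emb E) with IsType c Φ, ∑ ψ ∈ Φ, a0 E ψ Φ) : ℚ) : ℝ) = 0 := by
      rw [h2]; simp
    rw [← toReal_apply, map_sum] at h5
    simp_rw [map_sum] at h5
    rw [h5]
    simp
  abelian := by
    intro E hE hab Φ hΦ ψ
    have h1 : lam (a0 E ψ Φ) = 0 := hlam (hV.abelian E hE hab Φ hΦ ψ)
    rw [toReal_apply, h1]
    simp

/-- Part (0). -/
theorem span_part [IsGalois ℚ K] (hc1 : c ≠ 1) : Span c := by
  intro E hE Φ hΦ w
  constructor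
  · intro h
    exact h _ (condSub_known hc hc1)
  · intro h V hV
    by_contra hcon
    obtain ⟨lam, hlam1, hlam2⟩ := Submodule.exists_le_ker_of_notMem hcon
    have h1 := (reach hc hc1 0 E hE Φ hΦ w).mpr h (mkKnown hc V hV lam hlam2)
    have h2 : ∑ ψ : Emb E, (w ψ : ℝ) * toReal lam (a0 E ψ Φ) = 0 := by
      refine Eq.trans h1 ?_
      simp
    have h3 : toReal lam (∑ ψ : Emb E, w ψ • a0 E ψ Φ) = 0 := by
      rw [← h2, map_sum]
      apply Finset.sum_congr rfl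
      intro ψ _
      rw [map_smul, Rat.smul_def]
    rw [toReal_apply] at h3
    exact hlam1 (by exact_mod_cast h3)

lemma single [IsGalois ℚ K] (hc1 : c ≠ 1) {Z : ((K ≃ₐ[ℚ] K) → ℚ) →ₗ[ℚ] ℝ} (H : Heights c Z)
    {E : IntermediateField ℚ K} (hE : IsCMSub c E) {Φ : Finset (Emb E)} (hΦ : IsType c Φ)
    (ψ : Emb E) (h : RatOrAb (a0 E ψ Φ)) : H.ht E ψ Φ = Z (a0 E ψ Φ) := by
  have h1 := (reach hc hc1 Z E hE Φ hΦ (Pi.single ψ 1)).mpr (by
    have : (∑ ψ' : Emb E, (Pi.single ψ 1 : Emb E → ℚ) ψ' • a0 E ψ' Φ) = a0 E ψ Φ := by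
      rw [Finset.sum_eq_single ψ]
      · simp
      · intro b _ hb; simp [Pi.single_eq_of_ne hb]
      · intro h; exact absurd (Finset.mem_univ _) h
    rw [this]; exact h) H
  have h2 : ∀ u : Emb E → ℝ, ∑ ψ' : Emb E, (((Pi.single ψ 1 : Emb E → ℚ) ψ' : ℚ) : ℝ) * u ψ' =
      u ψ := by
    intro u
    rw [Finset.sum_eq_single ψ]
    · simp
    · intro b _ hb; simp [Pi.single_eq_of_ne hb]
    · intro h; exact absurd (Finset.mem_univ _) h
  rw [h2, h2] at h1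
  exact h1

lemma faltings [IsGalois ℚ K] (hc1 : c ≠ 1) {Z : ((K ≃ₐ[ℚ] K) → ℚ) →ₗ[ℚ] ℝ} (H : Heights c Z)
    {E : IntermediateField ℚ K} (hE : IsCMSub c E) {Φ : Finset (Emb E)} (hΦ : IsType c Φ)
    (h : RatOrAb (∑ ψ ∈ Φ, a0 E ψ Φ)) : ∑ ψ ∈ Φ, H.ht E ψ Φ = ∑ ψ ∈ Φ, Z (a0 E ψ Φ) := by
  have h1 := (reach hc hc1 Z E hE Φ hΦ (fun ψ => if ψ ∈ Φ then 1 else 0)).mpr (by
    have : (∑ ψ' : Emb E, (if ψ' ∈ Φ then (1 : ℚ) else 0) • a0 E ψ' Φ) =
        ∑ ψ ∈ Φ, a0 E ψ Φ := by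
      rw [← Finset.sum_filter_add_sum_filter_not univ (fun ψ' => ψ' ∈ Φ)]
      rw [Finset.sum_congr rfl (g := fun ψ' => a0 E ψ' Φ), Finset.sum_eq_zero
        (s := univ.filter fun ψ' => ψ' ∉ Φ)]
      · rw [add_zero]
        congr 1
        ext x; simp
      · intro x hx
        rw [if_neg (Finset.mem_filter.mp hx).2, zero_smul]
      · intro x hx
        rw [if_pos (Finset.mem_filter.mp hx).2, one_smul]
    rw [this]; exact h) H
  have h2 : ∀ u : Emb E → ℝ, ∑ ψ' : Emb E, (((if ψ' ∈ Φ then (1 : ℚ) else 0 : ℚ)) : ℝ) * u ψ' =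
      ∑ ψ ∈ Φ, u ψ := by
    intro u
    rw [← Finset.sum_filter_add_sum_filter_not univ (fun ψ' => ψ' ∈ Φ)]
    rw [Finset.sum_congr rfl (g := fun ψ' => u ψ'), Finset.sum_eq_zero
      (s := univ.filter fun ψ' => ψ' ∉ Φ)]
    · rw [add_zero]
      congr 1
      ext x; simp
    · intro x hx
      rw [if_neg (Finset.mem_filter.mp hx).2]; simp
    · intro x hx
      rw [if_pos (Finset.mem_filter.mp hx).2]; simp
  rw [h2, h2] at h1
  exact h1

end rat

attribute [local instance] instAct in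
/-- The statements for heights. -/
theorem heights_part (K : Type) [Field K] [NumberField K] [IsGalois ℚ K] (c : K ≃ₐ[ℚ] K)
    (hc : ∀ (φ : K →+* ℂ) (x : K), φ (c x) = starRingEnd ℂ (φ x)) (hc1 : c ≠ 1)
    (Z : ((K ≃ₐ[ℚ] K) → ℚ) →ₗ[ℚ] ℝ) :
    -- (A) exact reach of the published theorems, for every rational combination of heights
    (∀ E : IntermediateField ℚ K, IsCMSub c E → ∀ Φ : Finset (Emb E), IsType c Φ →
      ∀ w : Emb E → ℚ,
        ((∀ H : Heights c Z, ∑ ψ : Emb E, (w ψ : ℝ) * H.ht E ψ Φ =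
          ∑ ψ : Emb E, (w ψ : ℝ) * Z (a0 E ψ Φ)) ↔
        RatOrAb (∑ ψ : Emb E, w ψ • a0 E ψ Φ))) ∧
    ∀ H : Heights c Z,
      -- (B) rational Galois groups
      ((∀ (g : K ≃ₐ[ℚ] K) (m : ℕ), m.Coprime (Nat.card (K ≃ₐ[ℚ] K)) → IsConj g (g ^ m)) →
        ∀ E : IntermediateField ℚ K, IsCMSub c E → ∀ Φ : Finset (Emb E), IsType c Φ →
          ∀ ψ : Emb E, H.ht E ψ Φ = Z (a0 E ψ Φ)) ∧
      -- (C) composita with an imaginary quadratic field
      ∀ F K0 : IntermediateField ℚ K, degree K0 = 2 → IsCMSub c K0 →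
        -- doubly transitive: all embeddings and all types
        ((∀ i j i' j' : Emb F, i ≠ j → i' ≠ j' →
            ∃ s : K ≃ₐ[ℚ] K, act s i = i' ∧ act s j = j') →
          ∀ Φ : Finset (Emb (F ⊔ K0)), IsType c Φ → ∀ ψ : Emb (F ⊔ K0),
            H.ht (F ⊔ K0) ψ Φ = Z (a0 (F ⊔ K0) ψ Φ)) ∧
        -- transitive on unordered pairs: the Faltings heights of all types
        ((∀ i j i' j' : Emb F, i ≠ j → i' ≠ j' →
            ∃ s : K ≃ₐ[ℚ] K, (act s i = i' ∧ act s j = j') ∨ (act s i = j' ∧ act s j = i')) →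
          ∀ Φ : Finset (Emb (F ⊔ K0)), IsType c Φ →
            ∑ ψ ∈ Φ, H.ht (F ⊔ K0) ψ Φ = ∑ ψ ∈ Φ, Z (a0 (F ⊔ K0) ψ Φ)) := by
  refine ⟨fun E hE Φ hΦ w => reach hc hc1 Z E hE Φ hΦ w, fun H => ⟨?_, ?_⟩⟩
  · intro hrat E hE Φ hΦ ψ
    apply single hc hc1 H hE hΦ
    apply Cond_of_pow
    intro m hm g
    obtain ⟨x, hx⟩ := isConj_iff.mp (hrat g m hm)
    rw [← hx]
    exact aa_conj (G := K ≃ₐ[ℚ] K) ψ Φ x g
  · intro F K0 hK0 hK0c
    have hidx := index_fixing hK0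
    have hE : IsCMSub c (F ⊔ K0) := by
      obtain ⟨x, hx, hx2⟩ := hK0c
      exact ⟨x, (le_sup_right : K0 ≤ F ⊔ K0) hx, hx2⟩
    constructor
    · intro h2 Φ hΦ ψ
      apply single hc hc1 H hE hΦ
      apply Cond_of_pow
      intro m hm g
      have hodd := odd_of_coprime (c_sq hc) hc1 hm
      rw [a0_eq, aa_NN, aa_NN]
      congr 1
      apply Finset.sum_congr rfl
      intro y _
      exact NN_sup_pow hidx hm hodd h2 ψ y g
    · intro h2 Φ hΦ
      apply faltings hc hc1 H hE hΦ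
      apply Cond_of_pow
      intro m hm g
      have hodd := odd_of_coprime (c_sq hc) hc1 hm
      have h3 := sum_aa_NN (G := K ≃ₐ[ℚ] K) Φ
      rw [Finset.sum_apply, Finset.sum_apply]
      simp only [a0_eq]
      rw [h3, h3]
      congr 1
      apply Finset.sum_congr rfl
      intro x _
      apply Finset.sum_congr rfl
      intro y _
      exact NN_sup_homog hidx hm hodd h2 x y g

theorem cases_part (K : Type) [Field K] [NumberField K] [IsGalois ℚ K] (c : K ≃ₐ[ℚ] K)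
    (hc : ∀ (φ : K →+* ℂ) (x : K), φ (c x) = starRingEnd ℂ (φ x)) (hc1 : c ≠ 1) : SpanCases c := by
  intro V hV
  refine ⟨?_, ?_⟩
  · intro hrat E hE Φ hΦ ψ
    by_contra hcon
    obtain ⟨lam, hlam1, hlam2⟩ := Submodule.exists_le_ker_of_notMem hcon
    have h1 := ((heights_part K c hc hc1 0).2 (mkKnown hc V hV lam hlam2)).1 hrat E hE Φ hΦ ψ
    have h2 : ((lam (a0 E ψ Φ) : ℚ) : ℝ) = 0 := h1
    exact hlam1 (by exact_mod_cast h2)
  · intro F K0 hK0 hK0c
    refine ⟨?_, ?_⟩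
    · intro h2t Φ hΦ ψ
      by_contra hcon
      obtain ⟨lam, hlam1, hlam2⟩ := Submodule.exists_le_ker_of_notMem hcon
      have h1 := (((heights_part K c hc hc1 0).2 (mkKnown hc V hV lam hlam2)).2 F K0 hK0 hK0c).1 h2t Φ hΦ ψ
      have h2 : ((lam (a0 (F ⊔ K0) ψ Φ) : ℚ) : ℝ) = 0 := h1
      exact hlam1 (by exact_mod_cast h2)
    · intro h2t Φ hΦ
      by_contra hcon
      obtain ⟨lam, hlam1, hlam2⟩ := Submodule.exists_le_ker_of_notMem hcon
      have h1 := (((heights_part K c hc hc1 0).2 (mkKnown hc V hV lam hlam2)).2 F K0 hK0 hK0c).2 h2t Φ hΦ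
      have h2 : ∑ ψ ∈ Φ, ((lam (a0 (F ⊔ K0) ψ Φ) : ℚ) : ℝ) = 0 := by
        refine Eq.trans h1 ?_
        simp
      rw [← Rat.cast_sum, ← map_sum] at h2
      exact hlam1 (by exact_mod_cast h2)

attribute [local instance] instAct in
/-- **Main theorem.** -/
theorem result (K : Type) [Field K] [NumberField K] [IsGalois ℚ K] (c : K ≃ₐ[ℚ] K)
    (hc : ∀ (φ : K →+* ℂ) (x : K), φ (c x) = starRingEnd ℂ (φ x)) (hc1 : c ≠ 1) :
    -- (0) the span of the functions of the published theorems, and cases; no hypothesis on heights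
    (Span c ∧ SpanCases c) ∧
    ∀ Z : ((K ≃ₐ[ℚ] K) → ℚ) →ₗ[ℚ] ℝ,
    -- (A) exact reach of the published theorems, for every rational combination of heights
    (∀ E : IntermediateField ℚ K, IsCMSub c E → ∀ Φ : Finset (Emb E), IsType c Φ →
      ∀ w : Emb E → ℚ,
        ((∀ H : Heights c Z, ∑ ψ : Emb E, (w ψ : ℝ) * H.ht E ψ Φ =
          ∑ ψ : Emb E, (w ψ : ℝ) * Z (a0 E ψ Φ)) ↔
        RatOrAb (∑ ψ : Emb E, w ψ • a0 E ψ Φ))) ∧
    ∀ H : Heights c Z,
      -- (B) rational Galois groups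
      ((∀ (g : K ≃ₐ[ℚ] K) (m : ℕ), m.Coprime (Nat.card (K ≃ₐ[ℚ] K)) → IsConj g (g ^ m)) →
        ∀ E : IntermediateField ℚ K, IsCMSub c E → ∀ Φ : Finset (Emb E), IsType c Φ →
          ∀ ψ : Emb E, H.ht E ψ Φ = Z (a0 E ψ Φ)) ∧
      -- (C) composita with an imaginary quadratic field
      ∀ F K0 : IntermediateField ℚ K, degree K0 = 2 → IsCMSub c K0 →
        -- doubly transitive: all embeddings and all types
        ((∀ i j i' j' : Emb F, i ≠ j → i' ≠ j' →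
            ∃ s : K ≃ₐ[ℚ] K, act s i = i' ∧ act s j = j') →
          ∀ Φ : Finset (Emb (F ⊔ K0)), IsType c Φ → ∀ ψ : Emb (F ⊔ K0),
            H.ht (F ⊔ K0) ψ Φ = Z (a0 (F ⊔ K0) ψ Φ)) ∧
        -- transitive on unordered pairs: the Faltings heights of all types
        ((∀ i j i' j' : Emb F, i ≠ j → i' ≠ j' →
            ∃ s : K ≃ₐ[ℚ] K, (act s i = i' ∧ act s j = j') ∨ (act s i = j' ∧ act s j = i')) →
          ∀ Φ : Finset (Emb (F ⊔ K0)), IsType c Φ →
            ∑ ψ ∈ Φ, H.ht (F ⊔ K0) ψ Φ = ∑ ψ ∈ Φ, Z (a0 (F ⊔ K0) ψ Φ)) :=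
  ⟨⟨span_part hc hc1, cases_part K c hc hc1⟩, fun Z => heights_part K c hc hc1 Z⟩

end Pool.Agent.Results.MP_a2beea_nt.RationalConstituents
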