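import Pool.Agent.Q271.CM.Zf
import Pool.Agent.Q271.CM.Span

/-!
# Colmez's product formula: a zero-one law

If the formula `ht(E,ψ,Φ) = Z^∞((a⁰_{E,ψ,Φ})^*,0)` of the question fails for ONE CM field `E`, one CM
type `Φ` and one embedding `ψ`, then it fails for 100 percent of the CM types: let `K₁` be a CM field
which is Galois over `ℚ` and contains `E`. For every `ε > 0` there is a CM field `K` containing `K₁`
and Galois over `ℚ` (it depends only on `K₁` and `ε`), such that for every CM field `F` containing `K`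
and every embedding `φ` of `F` the formula holds for at most the proportion `ε` of all CM types of `F`.

So it is enough, for a proof of the formula in full, to prove it for a proportion of more than `ε` of
the CM types of one CM field above each CM field, with one embedding, for some `ε > 0`.

Part (A) is free of any hypothesis on heights: it is the corresponding statement on the rational
subspaces of the functions on the Galois group which contain the functions of the averaged formula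
and of the abelian case (`HasKnown`). In part (B) the heights are given by their known properties
(`Heights`), as in the team's `MP_a2beea_nt.RationalConstituents`: the theorems of Colmez, the
averaged formula and the abelian case.

Idea of the proof. For the given embedding `φ` of `F` the difference of the two sides is
`1/2 ∑ ± e(η)`, where `η` runs over the pairs of conjugate embeddings of `F` and the signs are given by
the type. If it vanishes for more than a proportion of about `1 / √m` of the types, at least all but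
`m` of the `e(η)` vanish (Littlewood-Offord, Erdős; Sperner's theorem). If the formula fails over `K₁`,
then some conjugacy class of `Gal(K/ℚ)` which does not restrict to `1` or `c` on `K₁` contributes
non-zero `e(η)` (the classes over `1` and `c` do not contribute, by the known theorems), at least as
many as it has elements. Finally, all these conjugacy classes are large if `K` is obtained from `K₁` by
repeatedly adjoining the conjugates of `√(t + θ)`, for a generator `θ` of the maximal real subfield and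
a suitable large `t`.
-/

open scoped Classical
open Finset Pool.Agent.Q271.CM

set_option linter.unusedSectionVars false

namespace Pool.Agent.Results.MP_a2beea_nt.ZeroOneLaw

/-- `K` is a CM field, Galois over `ℚ`, with complex conjugation `c`. -/
structure IsGaloisCM (K : Type) [Field K] [NumberField K] (c : K ≃ₐ[ℚ] K) : Prop where
  galois : IsGalois ℚ K
  conj : ∀ (φ : K →+* ℂ) (x : K), φ (c x) = starRingEnd ℂ (φ x)
  ne_one : c ≠ 1

/-- The statement for heights. -/
theorem heights_part (K₁ : Type) [Field K₁] [NumberField K₁] (c₁ : K₁ ≃ₐ[ℚ] K₁)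
    (h₁ : IsGaloisCM K₁ c₁) (ε : ℝ) (hε : 0 < ε) :
    ∃ (K : Type) (_ : Field K) (_ : NumberField K) (c : K ≃ₐ[ℚ] K) (ι : K₁ →+* K),
      IsGaloisCM K c ∧
      ∀ (K' : Type) [Field K'] [NumberField K'] (c' : K' ≃ₐ[ℚ] K'), IsGaloisCM K' c' →
        ∀ (κ : K →+* K') (Z : ((K' ≃ₐ[ℚ] K') → ℚ) →ₗ[ℚ] ℝ) (H : Heights c' Z),
        (∃ E : IntermediateField ℚ K', (∀ x ∈ E, ∃ z : K₁, κ (ι z) = x) ∧ IsCMSub c' E ∧
          ∃ Φ : Finset (Emb E), IsType c' Φ ∧ ∃ ψ : Emb E, H.ht E ψ Φ ≠ Z (a0 E ψ Φ)) →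
        ∀ F : IntermediateField ℚ K', (∀ z : K, κ z ∈ F) → ∀ φ : Emb F,
          (#{Φ : Finset (Emb F) | IsType c' Φ ∧ H.ht F φ Φ = Z (a0 F φ Φ)} : ℝ) ≤
            ε * #{Φ : Finset (Emb F) | IsType c' Φ} := by
  have := h₁.galois
  obtain ⟨t, ht⟩ := exists_nat_gt ((ε⁻¹) ^ 2)
  obtain ⟨K, iF, iN, iG, c, ι, hc, hc1, hB⟩ := exists_large h₁.conj h₁.ne_one t
  refine ⟨K, iF, iN, c, ι, ⟨iG, hc, hc1⟩, ?_⟩
  intro K' _ _ c' h' κ Z H hex F hF φ
  have := h'.galois
  obtain ⟨E, hE, hEc, Φ, hΦ, ψ, hne⟩ := hex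
  have h2 := law h₁.conj hc h'.conj h'.ne_one ι κ hB H hE hEc hΦ hne F hF φ
  refine h2.trans ?_
  have h3 : (t : ℝ) < 2 ^ t := by exact_mod_cast Nat.lt_two_pow_self
  have h4 : ε⁻¹ ≤ Real.sqrt (((2 ^ t : ℕ) : ℝ) + 1) := by
    apply Real.le_sqrt_of_sq_le
    push_cast
    linarith
  have h5 : 0 < Real.sqrt (((2 ^ t : ℕ) : ℝ) + 1) := Real.sqrt_pos.2 (by positivity)
  rw [div_le_iff₀ h5]
  have h6 : 1 ≤ ε * Real.sqrt (((2 ^ t : ℕ) : ℝ) + 1) := by
    have := mul_le_mul_of_nonneg_left h4 hε.le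
    rwa [mul_inv_cancel₀ hε.ne'] at this
  have h7 : (0 : ℝ) ≤ #{Φ : Finset (Emb F) | IsType c' Φ} := Nat.cast_nonneg _
  calc (#{Φ : Finset (Emb F) | IsType c' Φ} : ℝ) = #{Φ : Finset (Emb F) | IsType c' Φ} * 1 := by ring
    _ ≤ #{Φ : Finset (Emb F) | IsType c' Φ} * (ε * Real.sqrt (((2 ^ t : ℕ) : ℝ) + 1)) :=
        mul_le_mul_of_nonneg_left h6 h7
    _ = ε * #{Φ : Finset (Emb F) | IsType c' Φ} * Real.sqrt (((2 ^ t : ℕ) : ℝ) + 1) := by ring

/-- (A), free of hypotheses on heights: if `V` does not contain `a⁰_{E,ψ,Φ}` for one CM field `E` in `K₁`, one `Φ` and one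
`ψ`, then for the fields `F` between `K` and `K'` and all `φ` it contains `a⁰_{F,φ,Φ}` for at most the proportion `ε` of the
CM types `Φ` of `F`. -/
def SubspaceLaw {K₁ K K' : Type} [Field K₁] [Field K] [Field K'] [NumberField K'] (c' : K' ≃ₐ[ℚ] K')
    (ι : K₁ →+* K) (κ : K →+* K') (ε : ℝ) : Prop :=
  ∀ V : Submodule ℚ ((K' ≃ₐ[ℚ] K') → ℚ), HasKnown c' V →
    (∃ E : IntermediateField ℚ K', (∀ x ∈ E, ∃ z : K₁, κ (ι z) = x) ∧ IsCMSub c' E ∧
      ∃ Φ : Finset (Emb E), IsType c' Φ ∧ ∃ ψ : Emb E, a0 E ψ Φ ∉ V) →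
    ∀ F : IntermediateField ℚ K', (∀ z : K, κ z ∈ F) → ∀ φ : Emb F,
      (#{Φ : Finset (Emb F) | IsType c' Φ ∧ a0 F φ Φ ∈ V} : ℝ) ≤
        ε * #{Φ : Finset (Emb F) | IsType c' Φ}

/-- (B), for heights with the published properties: if the formula fails for one CM field `E` in `K₁`, one `Φ` and one `ψ`,
then for the fields `F` between `K` and `K'` and all `φ` it holds for at most the proportion `ε` of the CM types of `F`. -/
def HeightsLaw {K₁ K K' : Type} [Field K₁] [Field K] [Field K'] [NumberField K'] (c' : K' ≃ₐ[ℚ] K')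
    (ι : K₁ →+* K) (κ : K →+* K') (ε : ℝ) : Prop :=
  ∀ (Z : ((K' ≃ₐ[ℚ] K') → ℚ) →ₗ[ℚ] ℝ) (H : Heights c' Z),
    (∃ E : IntermediateField ℚ K', (∀ x ∈ E, ∃ z : K₁, κ (ι z) = x) ∧ IsCMSub c' E ∧
      ∃ Φ : Finset (Emb E), IsType c' Φ ∧ ∃ ψ : Emb E, H.ht E ψ Φ ≠ Z (a0 E ψ Φ)) →
    ∀ F : IntermediateField ℚ K', (∀ z : K, κ z ∈ F) → ∀ φ : Emb F,
      (#{Φ : Finset (Emb F) | IsType c' Φ ∧ H.ht F φ Φ = Z (a0 F φ Φ)} : ℝ) ≤
        ε * #{Φ : Finset (Emb F) | IsType c' Φ}

/-- **A zero-one law.** -/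
theorem result (K₁ : Type) [Field K₁] [NumberField K₁] (c₁ : K₁ ≃ₐ[ℚ] K₁) (h₁ : IsGaloisCM K₁ c₁)
    (ε : ℝ) (hε : 0 < ε) :
    ∃ (K : Type) (_ : Field K) (_ : NumberField K) (c : K ≃ₐ[ℚ] K) (ι : K₁ →+* K),
      IsGaloisCM K c ∧
      ∀ (K' : Type) [Field K'] [NumberField K'] (c' : K' ≃ₐ[ℚ] K'), IsGaloisCM K' c' →
        ∀ (κ : K →+* K'), SubspaceLaw c' ι κ ε ∧ HeightsLaw c' ι κ ε := by
  obtain ⟨K, iF, iN, c, ι, hK, hB⟩ := heights_part K₁ c₁ h₁ ε hε
  refine ⟨K, iF, iN, c, ι, hK, ?_⟩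
  intro K' _ _ c' h' κ
  refine ⟨?_, fun Z H => hB K' c' h' κ Z H⟩
  intro V hV hex F hF φ
  have := h'.galois
  obtain ⟨E, hE, hEc, Φ, hΦ, ψ, hne⟩ := hex
  obtain ⟨lam, hlam1, hlam2⟩ := Submodule.exists_le_ker_of_notMem hne
  have h1 := hB K' c' h' κ 0 (mkH h'.conj V hV lam hlam2) ⟨E, hE, hEc, Φ, hΦ, ψ, by
    rw [mkH_ht, LinearMap.zero_apply]
    intro h
    exact hlam1 (by exact_mod_cast h)⟩ F hF φ
  refine le_trans ?_ h1
  rw [Nat.cast_le]
  apply Finset.card_le_card
  intro Ψ hΨ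
  rw [Finset.mem_filter] at hΨ ⊢
  refine ⟨hΨ.1, hΨ.2.1, ?_⟩
  rw [mkH_ht, show lam (a0 F φ Ψ) = 0 from hlam2 hΨ.2.2, LinearMap.zero_apply]
  simp

end Pool.Agent.Results.MP_a2beea_nt.ZeroOneLaw
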